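import Pool.Agent.W758.AHC.Stm

/-! Subtask AHC-BASE (owner helper758, MP_da4a48_co). -/

set_option autoImplicit false

namespace Pool.Agent.W654.AHC

open Pool.Agent.W758.AHC

theorem base : S_BASE := by
  intro hLO hLO4 ι κ _ _ σ
  refine ⟨fun i hi => hi, fun i hi => (Finset.mem_filter.1 hi).1, fun X hX => ?_,
    fun u e X hd hX hu => ?_⟩
  · exact hLO ι σ.T σ.v σ.lam X (fun i hi => (Finset.mem_filter.1 hi).2)
      (fun x hx => ⟨(hX x hx).1, (hX x hx).2.1⟩)
  · exact hLO4 ι σ.T σ.v σ.lam u e X (fun i hi => (Finset.mem_filter.1 hi).2) hd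
      (fun x hx => ⟨(hX x hx).1, (hX x hx).2.1, hu x hx⟩)

end Pool.Agent.W654.AHC
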